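import Mathlib
import Pool.Agent.H630R2.LA.Defs

/-!
# Crossing sequences of 1-limited automata
-/

set_option autoImplicit false

namespace Pool.Agent.Q330.FV

open Pool.Agent.H630R2.LA

variable {A : Type} {M : LimAut A}

/-- `cs` is an accepting computation from `c`: it starts with `c`, every configuration is reached
from the one before it by one move, and the last one has left the tape to the right in a final
state. -/
inductive AccComp (strict : Prop) (N : ℕ) : Cfg M → List (Cfg M) → Prop
  | stop (c : Cfg M) : c.pos = N + 2 → c.state ∈ M.F → AccComp strict N c [c]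
  | move (c c' : Cfg M) (l : List (Cfg M)) : Step strict N c c' → AccComp strict N c' l →
      AccComp strict N c (c :: l)

/-- How often a computation visits cell `i`. -/
def visits (cs : List (Cfg M)) (i : ℕ) : ℕ := (cs.map fun c => c.pos).count i

theorem mem_language_iff (strict : Prop) (w : List A) :
    w ∈ M.language strict ↔ ∃ cs, AccComp strict w.length (init M w) cs := by
  constructor
  · rintro ⟨c, h, hp, hf⟩
    have key : ∀ a : Cfg M, Relation.ReflTransGen (Step strict w.length) a c →
        ∃ cs, AccComp strict w.length a cs := by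
      intro a ha
      induction ha using Relation.ReflTransGen.head_induction_on with
      | refl => exact ⟨_, AccComp.stop c hp hf⟩
      | head h1 _ ih =>
        obtain ⟨cs, hcs⟩ := ih
        exact ⟨_, AccComp.move _ _ _ h1 hcs⟩
    exact key _ h
  · rintro ⟨cs, h⟩
    have key : ∀ (a : Cfg M) (cs : List (Cfg M)), AccComp strict w.length a cs →
        ∃ c, Relation.ReflTransGen (Step strict w.length) a c ∧ c.pos = w.length + 2 ∧
          c.state ∈ M.F := by
      intro a cs h
      induction h with
      | stop c hp hf => exact ⟨c, Relation.ReflTransGen.refl, hp, hf⟩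
      | move c c' l h1 _ ih =>
        obtain ⟨c2, h2, h3⟩ := ih
        exact ⟨c2, Relation.ReflTransGen.head h1 h2, h3⟩
    obtain ⟨c, h1, h2, h3⟩ := key _ cs h
    exact ⟨c, h1, h2, h3⟩

/-- Every input has at most one accepting computation. -/
def Unambiguous (strict : Prop) (M : LimAut A) : Prop :=
  ∀ (w : List A) (cs cs' : List (Cfg M)), AccComp strict w.length (init M w) cs →
    AccComp strict w.length (init M w) cs' → cs = cs'

theorem cfg_ext {c c' : Cfg M} (h1 : c.state = c'.state) (h2 : c.pos = c'.pos)
    (h3 : c.tape = c'.tape) (h4 : c.seen = c'.seen) : c = c' := by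
  cases c
  cases c'
  simp only at h1 h2 h3 h4
  subst h1 h2 h3 h4
  rfl

theorem step_det {strict : Prop} {N : ℕ} (hd : M.Deterministic) {c c1 c2 : Cfg M}
    (h1 : Step strict N c c1) (h2 : Step strict N c c2) : c1 = c2 := by
  obtain ⟨_, q, b, d, hm, _, hs, ht1, ht2, hse, hp1, hp2⟩ := h1
  obtain ⟨_, q', b', d', hm', _, hs', ht1', ht2', hse', hp1', hp2'⟩ := h2
  have he := hd _ _ hm hm'
  rw [Prod.mk.injEq, Prod.mk.injEq] at he
  obtain ⟨e1, e2, e3⟩ := he
  subst e1 e2 e3
  refine cfg_ext (hs.trans hs'.symm) ?_ ?_ (hse.trans hse'.symm)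
  · cases d with
    | true => rw [hp1 rfl, hp1' rfl]
    | false =>
      have := hp2 rfl
      have := hp2' rfl
      omega
  · by_cases h : c.pos ∈ c.seen
    · rw [ht1 h, ht1' h]
    · rw [ht2 h, ht2' h]

theorem unambiguous_of_deterministic (strict : Prop) (hd : M.Deterministic) :
    Unambiguous strict M := by
  intro w cs cs' h
  generalize init M w = c at h
  induction h generalizing cs' with
  | stop c hp hf =>
    intro h'
    cases h' with
    | stop => rfl
    | move _ c' l h1 h2 =>
      have := h1.1
      omega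
  | move c c' l h1 h2 ih =>
    intro h'
    cases h' with
    | stop _ hp hf =>
      have := h1.1
      omega
    | move _ c'' l' h1' h2' =>
      have e := step_det hd h1 h1'
      subst e
      rw [ih _ h2']

/-- An accepting computation together with its crossing sequence at the boundary between the cells
`m` and `m + 1`: the list of the states in which the head crosses it. -/
inductive Run (strict : Prop) (N m : ℕ) : Cfg M → List M.Q → List (Cfg M) → Prop
  | stop (c : Cfg M) : c.pos = N + 2 → c.state ∈ M.F → Run strict N m c [] [c]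
  | stay (c c' : Cfg M) (l : List M.Q) (cs : List (Cfg M)) : Step strict N c c' →
      (c.pos ≤ m ↔ c'.pos ≤ m) → Run strict N m c' l cs → Run strict N m c l (c :: cs)
  | cross (c c' : Cfg M) (q : M.Q) (l : List M.Q) (cs : List (Cfg M)) : Step strict N c c' →
      ¬ (c.pos ≤ m ↔ c'.pos ≤ m) → c'.state = q → Run strict N m c' l cs →
      Run strict N m c (q :: l) (c :: cs)

variable {strict : Prop} {N m : ℕ}

theorem exists_run {c : Cfg M} {cs : List (Cfg M)} (h : AccComp strict N c cs) (m : ℕ) :
    ∃ l, Run strict N m c l cs := by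
  induction h with
  | stop c hp hf => exact ⟨[], Run.stop c hp hf⟩
  | move c c' l h1 _ ih =>
    obtain ⟨t, ht⟩ := ih
    by_cases h : c.pos ≤ m ↔ c'.pos ≤ m
    · exact ⟨t, Run.stay c c' t l h1 h ht⟩
    · exact ⟨_, Run.cross c c' _ t l h1 h rfl ht⟩

theorem Run.acc {c : Cfg M} {l : List M.Q} {cs : List (Cfg M)} (h : Run strict N m c l cs) :
    AccComp strict N c cs := by
  induction h with
  | stop c hp hf => exact AccComp.stop c hp hf
  | stay c c' l cs h1 _ _ ih => exact AccComp.move _ _ _ h1 ih
  | cross c c' q l cs h1 _ _ _ ih => exact AccComp.move _ _ _ h1 ih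

theorem Run.head {c : Cfg M} {l : List M.Q} {cs : List (Cfg M)} (h : Run strict N m c l cs) :
    ∃ t, cs = c :: t := by
  cases h with
  | stop => exact ⟨_, rfl⟩
  | stay => exact ⟨_, rfl⟩
  | cross => exact ⟨_, rfl⟩

theorem Run.func {c : Cfg M} {l l' : List M.Q} {cs : List (Cfg M)} (h : Run strict N m c l cs)
    (h' : Run strict N m c l' cs) : l = l' := by
  induction h generalizing l' with
  | stop c hp hf =>
    cases h' with
    | stop => rfl
    | stay _ c' l cs h1 h2 h3 =>
      obtain ⟨t, ht⟩ := h3.head
      exact absurd ht (by simp)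
    | cross _ c' q l cs h1 h2 hq h3 =>
      obtain ⟨t, ht⟩ := h3.head
      exact absurd ht (by simp)
  | stay c c' l cs h1 h2 h3 ih =>
    obtain ⟨t, ht⟩ := h3.head
    cases h' with
    | stop => exact absurd ht (by simp)
    | stay _ c'' l'' _ h1' h2' h3' =>
      obtain ⟨t', ht'⟩ := h3'.head
      have e : c' = c'' := by
        rw [ht] at ht'
        exact (List.cons.inj ht').1
      subst e
      exact ih h3'
    | cross _ c'' q'' l'' _ h1' h2' hq' h3' =>
      obtain ⟨t', ht'⟩ := h3'.head
      have e : c' = c'' := by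
        rw [ht] at ht'
        exact (List.cons.inj ht').1
      subst e
      exact absurd h2 h2'
  | cross c c' q l cs h1 h2 hq h3 ih =>
    obtain ⟨t, ht⟩ := h3.head
    cases h' with
    | stop => exact absurd ht (by simp)
    | stay _ c'' l'' _ h1' h2' h3' =>
      obtain ⟨t', ht'⟩ := h3'.head
      have e : c' = c'' := by
        rw [ht] at ht'
        exact (List.cons.inj ht').1
      subst e
      exact absurd h2' h2
    | cross _ c'' q'' l'' _ h1' h2' hq' h3' =>
      obtain ⟨t', ht'⟩ := h3'.head
      have e : c' = c'' := by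
        rw [ht] at ht'
        exact (List.cons.inj ht').1
      subst e
      rw [ih h3', ← hq, ← hq']

theorem step_pos {c c' : Cfg M} (h : Step strict N c c') :
    c'.pos = c.pos + 1 ∨ c'.pos + 1 = c.pos := by
  obtain ⟨_, q, b, d, _, _, _, _, _, _, hp1, hp2⟩ := h
  cases d with
  | true => exact Or.inl (hp1 rfl)
  | false => exact Or.inr (hp2 rfl)

theorem Run.length_le {c : Cfg M} {l : List M.Q} {cs : List (Cfg M)}
    (h : Run strict N m c l cs) :
    l.length + (if c.pos = m then 1 else 0) ≤ 2 * visits cs m := by
  unfold visits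
  induction h with
  | stop c hp hf =>
    simp only [List.length_nil, List.map_cons, List.map_nil, List.count_cons, List.count_nil,
      beq_iff_eq]
    split_ifs <;> omega
  | stay c c' l cs h1 h2 h3 ih =>
    simp only [List.map_cons, List.count_cons, beq_iff_eq]
    split_ifs at ih ⊢ <;> omega
  | cross c c' q l cs h1 h2 hq h3 ih =>
    simp only [List.map_cons, List.count_cons, beq_iff_eq, List.length_cons]
    have hp := step_pos h1
    split_ifs at ih ⊢ <;> omega

/-- The configuration with the left part of `a` and the right part of `b`. -/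
def glue (m : ℕ) (q : M.Q) (i : ℕ) (a b : Cfg M) : Cfg M :=
  ⟨q, i, fun j => if j ≤ m then a.tape j else b.tape j,
    {j | if j ≤ m then j ∈ a.seen else j ∈ b.seen}⟩

theorem step_tape_ne {c c' : Cfg M} (h : Step strict N c c') {j : ℕ} (hj : j ≠ c.pos) :
    c'.tape j = c.tape j := by
  obtain ⟨_, q, b, d, _, _, _, ht1, ht2, _, _, _⟩ := h
  by_cases hs : c.pos ∈ c.seen
  · rw [ht1 hs]
  · rw [ht2 hs, Function.update_of_ne hj]

theorem step_seen_ne {c c' : Cfg M} (h : Step strict N c c') {j : ℕ} (hj : j ≠ c.pos) :
    j ∈ c'.seen ↔ j ∈ c.seen := by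
  obtain ⟨_, q, b, d, _, _, _, _, _, hse, _, _⟩ := h
  rw [hse, Set.mem_insert_iff]
  exact ⟨fun h => h.resolve_left hj, Or.inr⟩

theorem glue_right {c c' : Cfg M} (h : Step strict N c c') (hc : c.pos ≤ m) (q : M.Q) (i : ℕ)
    (a : Cfg M) : glue m q i a c' = glue m q i a c := by
  refine cfg_ext rfl rfl ?_ ?_
  · funext j
    simp only [glue]
    split_ifs with hj
    · rfl
    · exact step_tape_ne h (by omega)
  · ext j
    simp only [glue, Set.mem_ofPred_eq]
    split_ifs with hj
    · rfl
    · exact step_seen_ne h (by omega)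

theorem glue_left {c c' : Cfg M} (h : Step strict N c c') (hc : ¬ c.pos ≤ m) (q : M.Q) (i : ℕ)
    (b : Cfg M) : glue m q i c' b = glue m q i c b := by
  refine cfg_ext rfl rfl ?_ ?_
  · funext j
    simp only [glue]
    split_ifs with hj
    · exact step_tape_ne h (by omega)
    · rfl
  · ext j
    simp only [glue, Set.mem_ofPred_eq]
    split_ifs with hj
    · exact step_seen_ne h (by omega)
    · rfl

theorem step_left {c c' : Cfg M} (h : Step strict N c c') (hc : c.pos ≤ m) (b : Cfg M) :
    Step strict N (glue m c.state c.pos c b) (glue m c'.state c'.pos c' b) := by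
  obtain ⟨hpos, q, s, d, hm, hst, hs, ht1, ht2, hse, hp1, hp2⟩ := h
  have e1 : (glue m c.state c.pos c b).tape c.pos = c.tape c.pos := by
    simp [glue, hc]
  have e2 : c.pos ∈ (glue m c.state c.pos c b).seen ↔ c.pos ∈ c.seen := by
    simp [glue, hc]
  refine ⟨hpos, q, s, d, ?_, ?_, hs, ?_, ?_, ?_, hp1, hp2⟩
  · exact e1.symm ▸ hm
  · intro h1 h2
    have h3 := hst h1 (e2.1 h2)
    exact e1.symm ▸ h3
  · intro h1
    have h2 := ht1 (e2.1 h1)
    funext j
    simp only [glue]
    rw [h2]
  · intro h1
    have h2 := ht2 (fun h => h1 (e2.2 h))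
    have e1' : (glue m c.state c.pos c b).tape (glue m c.state c.pos c b).pos = c.tape c.pos := e1
    rw [e1']
    funext j
    by_cases hj : j = c.pos
    · subst hj
      have : (glue m c.state c.pos c b).pos = c.pos := rfl
      rw [this, Function.update_self]
      simp only [glue, if_pos hc]
      rw [h2, Function.update_self]
    · have : (glue m c.state c.pos c b).pos = c.pos := rfl
      rw [this, Function.update_of_ne hj]
      simp only [glue]
      rw [h2, Function.update_of_ne hj]
  · ext j
    have : (glue m c.state c.pos c b).pos = c.pos := rfl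
    rw [this, Set.mem_insert_iff]
    simp only [glue, Set.mem_ofPred_eq]
    rw [hse]
    by_cases hj : j = c.pos
    · subst hj
      simp [hc]
    · simp [hj]

theorem step_right {c c' : Cfg M} (h : Step strict N c c') (hc : ¬ c.pos ≤ m) (a : Cfg M) :
    Step strict N (glue m c.state c.pos a c) (glue m c'.state c'.pos a c') := by
  obtain ⟨hpos, q, s, d, hm, hst, hs, ht1, ht2, hse, hp1, hp2⟩ := h
  have e1 : (glue m c.state c.pos a c).tape c.pos = c.tape c.pos := by
    simp [glue, hc]
  have e2 : c.pos ∈ (glue m c.state c.pos a c).seen ↔ c.pos ∈ c.seen := by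
    simp [glue, hc]
  refine ⟨hpos, q, s, d, ?_, ?_, hs, ?_, ?_, ?_, hp1, hp2⟩
  · exact e1.symm ▸ hm
  · intro h1 h2
    have h3 := hst h1 (e2.1 h2)
    exact e1.symm ▸ h3
  · intro h1
    have h2 := ht1 (e2.1 h1)
    funext j
    simp only [glue]
    rw [h2]
  · intro h1
    have h2 := ht2 (fun h => h1 (e2.2 h))
    have e1' : (glue m c.state c.pos a c).tape (glue m c.state c.pos a c).pos = c.tape c.pos := e1
    rw [e1']
    funext j
    by_cases hj : j = c.pos
    · subst hj
      have : (glue m c.state c.pos a c).pos = c.pos := rfl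
      rw [this, Function.update_self]
      simp only [glue, if_neg hc]
      rw [h2, Function.update_self]
    · have : (glue m c.state c.pos a c).pos = c.pos := rfl
      rw [this, Function.update_of_ne hj]
      simp only [glue]
      rw [h2, Function.update_of_ne hj]
  · ext j
    have : (glue m c.state c.pos a c).pos = c.pos := rfl
    rw [this, Set.mem_insert_iff]
    simp only [glue, Set.mem_ofPred_eq]
    rw [hse]
    by_cases hj : j = c.pos
    · subst hj
      simp [hc]
    · simp [hj]

/-- **Cut and paste.** -/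
theorem paste (hm : m ≤ N + 1) : ∀ (n : ℕ) (c1 c2 : Cfg M) (l : List M.Q)
    (cs1 cs2 : List (Cfg M)), cs1.length + cs2.length ≤ n → Run strict N m c1 l cs1 →
    Run strict N m c2 l cs2 →
    (c1.pos ≤ m → c2.pos ≤ m → ∃ cs, Run strict N m (glue m c1.state c1.pos c1 c2) l cs) ∧
    (¬ c1.pos ≤ m → ¬ c2.pos ≤ m →
      ∃ cs, Run strict N m (glue m c2.state c2.pos c1 c2) l cs) := by
  intro n
  induction n with
  | zero =>
    intro c1 c2 l cs1 cs2 hn h1 _
    obtain ⟨t, ht⟩ := h1.head
    rw [ht, List.length_cons] at hn
    omega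
  | succ n ih =>
    intro c1 c2 l cs1 cs2 hn r1 r2
    refine ⟨fun p1 p2 => ?_, fun p1 p2 => ?_⟩
    · cases r1 with
      | stop _ hp _ => omega
      | stay _ c1' _ cs1' s1 q1 r1' =>
        obtain ⟨cs, h⟩ := (ih c1' c2 l cs1' cs2 (by simp only [List.length_cons] at hn; omega)
          r1' r2).1 (q1.1 p1) p2
        exact ⟨_, Run.stay _ _ _ _ (step_left s1 p1 c2) q1 h⟩
      | cross _ c1' q l' cs1' s1 q1 hq1 r1' =>
        have p1' : ¬ c1'.pos ≤ m := fun h => q1 ⟨fun _ => h, fun _ => p1⟩
        cases r2 with
        | stay _ c2' _ cs2' s2 q2 r2' =>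
          obtain ⟨cs, h⟩ := (ih c1 c2' _ (c1 :: cs1') cs2'
            (by simp only [List.length_cons] at hn ⊢; omega)
            (Run.cross _ _ _ _ _ s1 q1 hq1 r1') r2').1 p1 (q2.1 p2)
          rw [glue_right s2 p2] at h
          exact ⟨_, h⟩
        | cross _ c2' _ _ cs2' s2 q2 hq2 r2' =>
          have p2' : ¬ c2'.pos ≤ m := fun h => q2 ⟨fun _ => h, fun _ => p2⟩
          obtain ⟨cs, h⟩ := (ih c1' c2' l' cs1' cs2'
            (by simp only [List.length_cons] at hn; omega) r1' r2').2 p1' p2'
          have e2 : c2'.pos = c1'.pos := by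
            have := step_pos s1
            have := step_pos s2
            omega
          rw [glue_right s2 p2, e2, hq2.trans hq1.symm] at h
          exact ⟨_, Run.cross _ _ _ _ _ (step_left s1 p1 c2) q1 hq1 h⟩
    · cases r2 with
      | stop _ hp hf => exact ⟨_, Run.stop _ hp hf⟩
      | stay _ c2' _ cs2' s2 q2 r2' =>
        obtain ⟨cs, h⟩ := (ih c1 c2' l cs1 cs2' (by simp only [List.length_cons] at hn; omega)
          r1 r2').2 p1 (fun h => p2 (q2.2 h))
        exact ⟨_, Run.stay _ _ _ _ (step_right s2 p2 c1) q2 h⟩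
      | cross _ c2' q l' cs2' s2 q2 hq2 r2' =>
        have p2' : c2'.pos ≤ m := by
          by_contra h
          exact q2 ⟨fun h' => absurd h' p2, fun h' => absurd h' h⟩
        cases r1 with
        | stay _ c1' _ cs1' s1 q1 r1' =>
          obtain ⟨cs, h⟩ := (ih c1' c2 _ cs1' (c2 :: cs2')
            (by simp only [List.length_cons] at hn ⊢; omega) r1'
            (Run.cross _ _ _ _ _ s2 q2 hq2 r2')).2 (fun h => p1 (q1.2 h)) p2
          rw [glue_left s1 p1] at h
          exact ⟨_, h⟩
        | cross _ c1' _ _ cs1' s1 q1 hq1 r1' =>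
          have p1' : c1'.pos ≤ m := by
            by_contra h
            exact q1 ⟨fun h' => absurd h' p1, fun h' => absurd h' h⟩
          obtain ⟨cs, h⟩ := (ih c1' c2' l' cs1' cs2'
            (by simp only [List.length_cons] at hn; omega) r1' r2').1 p1' p2'
          have e2 : c1'.pos = c2'.pos := by
            have := step_pos s1
            have := step_pos s2
            omega
          rw [glue_left s1 p1, e2, hq1.trans hq2.symm] at h
          exact ⟨_, Run.cross _ _ _ _ _ (step_right s2 p2 c1) q2 hq2 h⟩

end Pool.Agent.Q330.FV
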