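import Mathlib
import Pool.Agent.Q330.FV.Cut

/-!
# A small 1-limited automaton which finds a common element of two sets of vectors
-/

set_option autoImplicit false

namespace Pool.Agent.Q330.FV

open Pool.Agent.H630R2.LA

/-- The letters: the bit `b` of the coordinate `j`, or the end of a block with a flag. -/
abbrev Letter (n : ℕ) : Type := (Fin n × Bool) ⊕ Bool

/-- The work symbols: a letter, perhaps with a guessed bit. -/
abbrev Wk (n : ℕ) : Type := Letter n × Option Bool

/-- The states. -/
inductive St (n : ℕ) : Type
  | guess : St n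
  | back (j : Fin (n + 1)) : St n
  | chk (j : Fin n) (v : Bool) : St n
  | cnt (c : Fin 3) (ok : Bool) : St n

def stEquiv (n : ℕ) : St n ≃ Unit ⊕ Fin (n + 1) ⊕ (Fin n × Bool) ⊕ (Fin 3 × Bool) where
  toFun s := match s with
    | .guess => .inl ()
    | .back j => .inr (.inl j)
    | .chk j v => .inr (.inr (.inl (j, v)))
    | .cnt c ok => .inr (.inr (.inr (c, ok)))
  invFun s := match s with
    | .inl () => .guess
    | .inr (.inl j) => .back j
    | .inr (.inr (.inl (j, v))) => .chk j v
    | .inr (.inr (.inr (c, ok))) => .cnt c ok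
  left_inv s := by cases s <;> rfl
  right_inv s := by rcases s with _ | _ | ⟨_, _⟩ | ⟨_, _⟩ <;> rfl

theorem card_St (n : ℕ) : Nat.card (St n) = 3 * n + 8 := by
  rw [Nat.card_congr (stEquiv n)]
  simp only [Nat.card_eq_fintype_card, Fintype.card_sum, Fintype.card_prod, Fintype.card_fin,
    Fintype.card_bool, Fintype.card_unit]
  omega

/-- one more, up to two -/
def inc : Fin 3 → Fin 3
  | 0 => 1
  | 1 => 2
  | 2 => 2

/-- the counting step of the last sweep -/
def upd {n : ℕ} (c : Fin 3) (ok : Bool) : Wk n → St n
  | (.inl (_, b), o) => .cnt c (ok && (o == some b))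
  | (.inr f, _) => .cnt (if (ok && f) = true then inc c else c) true

/-- the moves -/
def delta (n : ℕ) : St n → Sym (Wk n) → Set (St n × Wk n × Bool)
  | .guess, .sym s => {x | ∃ b : Bool, x = (.guess, (s.1, some b), true)}
  | .guess, .rm => {x | x = (.back 0, (.inr false, none), false)}
  | .guess, .lm => {x | False}
  | .back j, .sym s => {x | x = (.back j, s, false)}
  | .back j, .lm => {x | (∃ (h : j.val < n) (v : Bool),
      x = (.chk ⟨j.val, h⟩ v, (.inr false, none), true)) ∨
      (j.val = n ∧ x = (.cnt 0 true, (.inr false, none), true))}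
  | .back _, .rm => {x | False}
  | .chk j v, .sym s => {x | (∀ b, s.1 = .inl (j, b) → s.2 = some v) ∧ x = (.chk j v, s, true)}
  | .chk j _, .rm => {x | x = (.back j.succ, (.inr false, none), false)}
  | .chk _ _, .lm => {x | False}
  | .cnt c ok, .sym s => {x | x = (upd c ok s, s, true)}
  | .cnt c ok, .rm => {x | x = (.cnt c ok, (.inr false, none), true)}
  | .cnt _ _, .lm => {x | False}

/-- The automaton. -/
abbrev mach (n : ℕ) : LimAut (Letter n) where
  Q := St n
  W := Wk n
  finQ := Finite.of_equiv _ (stEquiv n).symm
  finW := inferInstance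
  inp a := (a, none)
  inp_inj a b h := (Prod.mk.inj h).1
  δ := delta n
  q0 := .guess
  F := {q | ∃ ok, q = .cnt 2 ok}

variable {n : ℕ} {strict : Prop}

/-- accepted from `c` -/
def Acc (strict : Prop) (N : ℕ) (c : Cfg (mach n)) : Prop := ∃ cs, AccComp strict N c cs

theorem acc_iff {N : ℕ} (c : Cfg (mach n)) : Acc strict N c ↔
    (c.pos = N + 2 ∧ c.state ∈ (mach n).F) ∨ ∃ c', Step strict N c c' ∧ Acc strict N c' := by
  constructor
  · rintro ⟨cs, h⟩
    cases h with
    | stop _ hp hf => exact Or.inl ⟨hp, hf⟩
    | move _ c' l h1 h2 => exact Or.inr ⟨c', h1, l, h2⟩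
  · rintro (⟨h1, h2⟩ | ⟨c', h1, l, h2⟩)
    · exact ⟨_, AccComp.stop c h1 h2⟩
    · exact ⟨_, AccComp.move _ _ _ h1 h2⟩

theorem delta_rewrite {q : St n} (hq : q ≠ .guess) {σ : Sym (Wk n)} {x : St n × Wk n × Bool}
    (h : x ∈ delta n q σ) : σ.rewrite x.2.1 = σ := by
  cases q with
  | guess => exact absurd rfl hq
  | back j =>
    cases σ with
    | lm => rfl
    | rm => rfl
    | sym s =>
      have h : x = (.back j, s, false) := h
      rw [h]
      rfl
  | chk j v =>
    cases σ with
    | lm => rfl
    | rm => rfl
    | sym s =>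
      have h : (∀ b, s.1 = .inl (j, b) → s.2 = some v) ∧ x = (.chk j v, s, true) := h
      rw [h.2]
      rfl
  | cnt c ok =>
    cases σ with
    | lm => rfl
    | rm => rfl
    | sym s =>
      have h : x = (upd c ok s, s, true) := h
      rw [h]
      rfl

/-- One move in a state different from `guess`. -/
theorem acc_ng {N : ℕ} {q : St n} (hq : q ≠ .guess) {i : ℕ} (hi : i ≤ N + 1)
    (τ : ℕ → Sym (Wk n)) (S : Set ℕ) :
    Acc strict N (⟨q, i, τ, S⟩ : Cfg (mach n)) ↔ ∃ (q' : St n) (b : Wk n) (d : Bool) (i' : ℕ),
      (q', b, d) ∈ delta n q (τ i) ∧ (d = true → i' = i + 1) ∧ (d = false → i' + 1 = i) ∧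
      Acc strict N (⟨q', i', τ, insert i S⟩ : Cfg (mach n)) := by
  rw [acc_iff]
  constructor
  · rintro (⟨h1, _⟩ | ⟨c', ⟨_, q', b, d, hm, _, hs, ht1, ht2, hse, hp1, hp2⟩, hacc⟩)
    · simp only at h1
      omega
    · refine ⟨q', b, d, c'.pos, hm, hp1, hp2, ?_⟩
      have hrw : (τ i).rewrite b = τ i := delta_rewrite hq hm
      have ht : c'.tape = τ := by
        by_cases h : i ∈ S
        · exact ht1 h
        · rw [ht2 h]
          change Function.update τ i ((τ i).rewrite b) = τ
          rw [hrw]
          exact Function.update_eq_self i τ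
      have e : c' = (⟨q', c'.pos, τ, insert i S⟩ : Cfg (mach n)) := cfg_ext hs rfl ht hse
      rw [← e]
      exact hacc
  · rintro ⟨q', b, d, i', hm, hp1, hp2, hacc⟩
    right
    have hrw : (τ i).rewrite b = τ i := delta_rewrite hq hm
    have hst : Step strict N (⟨q, i, τ, S⟩ : Cfg (mach n)) ⟨q', i', τ, insert i S⟩ := by
      refine ⟨hi, q', b, d, hm, fun _ _ => hrw, rfl, fun _ => rfl, fun _ => ?_, rfl, hp1, hp2⟩
      change τ = Function.update τ i ((τ i).rewrite b)
      rw [hrw]
      exact (Function.update_eq_self i τ).symm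
    exact ⟨_, hst, hacc⟩

/-- The tape for the word `w` after the guesses `u` in the first `k` cells. -/
def tp (w : List (Letter n)) (u : ℕ → Bool) (k : ℕ) : ℕ → Sym (Wk n)
  | 0 => .lm
  | i + 1 => match w[i]? with
    | some a => if i < k then .sym (a, some (u i)) else .sym (a, none)
    | none => .rm

theorem tp_zero (w : List (Letter n)) (u : ℕ → Bool) : tp w u 0 = initTape (mach n) w := by
  funext i
  cases i with
  | zero => rfl
  | succ i =>
    simp only [tp, initTape, Nat.not_lt_zero, if_false]
    rcases w[i]? with _ | a <;> rfl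

/-- The set of the first `k` cells. -/
def seenSet (k : ℕ) : Set ℕ := {j | 1 ≤ j ∧ j ≤ k}

theorem guess_step (w : List (Letter n)) (u : ℕ → Bool) (k : ℕ) (hk : k < w.length) :
    Acc strict w.length (⟨.guess, k + 1, tp w u k, seenSet k⟩ : Cfg (mach n)) ↔
    ∃ b : Bool, Acc strict w.length
      (⟨.guess, k + 2, tp w (Function.update u k b) (k + 1), seenSet (k + 1)⟩ :
        Cfg (mach n)) := by
  obtain ⟨a, ha⟩ : ∃ a, w[k]? = some a := ⟨_, List.getElem?_eq_getElem hk⟩
  have htk : tp w u k (k + 1) = .sym (a, none) := by
    simp only [tp, ha, lt_irrefl, if_false]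
  have hns : k + 1 ∉ seenSet k := fun h => absurd h.2 (by omega)
  have hset : insert (k + 1) (seenSet k) = seenSet (k + 1) := by
    ext j
    simp only [seenSet, Set.mem_insert_iff, Set.mem_ofPred_eq]
    omega
  have htape : ∀ b : Bool, Function.update (tp w u k) (k + 1) (.sym (a, some b)) =
      tp w (Function.update u k b) (k + 1) := by
    intro b
    funext j
    cases j with
    | zero => rfl
    | succ j =>
      by_cases hj : j = k
      · subst hj
        rw [Function.update_self]
        simp only [tp, ha, Nat.lt_succ_self, if_true, Function.update_self]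
      · rw [Function.update_of_ne (by omega)]
        simp only [tp, Function.update_of_ne hj]
        rcases w[j]? with _ | a'
        · rfl
        · have : j < k ↔ j < k + 1 := by omega
          simp only [this]
  rw [acc_iff]
  constructor
  · rintro (⟨h1, _⟩ | ⟨c', ⟨_, q', s, d, hm, _, hs, ht1, ht2, hse, hp1, hp2⟩, hacc⟩)
    · simp only at h1
      omega
    · have hm' : (q', s, d) ∈ delta n .guess (tp w u k (k + 1)) := hm
      rw [htk] at hm'
      obtain ⟨b, hb⟩ : ∃ b : Bool, (q', s, d) = (.guess, (a, some b), true) := hm'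
      simp only [Prod.mk.injEq] at hb
      obtain ⟨e1, e2, e3⟩ := hb
      refine ⟨b, ?_⟩
      have e : c' = (⟨.guess, k + 2, tp w (Function.update u k b) (k + 1), seenSet (k + 1)⟩ :
          Cfg (mach n)) := by
        refine cfg_ext (hs.trans e1) (hp1 e3) ?_ (hse.trans hset)
        rw [ht2 hns, ← htape b, e2]
        change Function.update (tp w u k) (k + 1) ((tp w u k (k + 1)).rewrite (a, some b)) = _
        rw [htk]
        rfl
      rw [← e]
      exact hacc
  · rintro ⟨b, hacc⟩
    right
    refine ⟨_, ⟨by simp only; omega, .guess, (a, some b), true, ?_, ?_, rfl, ?_, ?_, ?_, ?_, ?_⟩,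
      hacc⟩
    · change (_, _, _) ∈ delta n .guess (tp w u k (k + 1))
      rw [htk]
      exact ⟨b, rfl⟩
    · intro _ h
      exact absurd h hns
    · intro h
      exact absurd h hns
    · intro _
      rw [← htape b]
      change _ = Function.update (tp w u k) (k + 1) ((tp w u k (k + 1)).rewrite (a, some b))
      rw [htk]
      rfl
    · exact hset.symm
    · intro _
      rfl
    · intro h
      exact absurd h (by simp)

theorem guess_end (w : List (Letter n)) (u : ℕ → Bool) (S : Set ℕ) :
    Acc strict w.length (⟨.guess, w.length + 1, tp w u w.length, S⟩ : Cfg (mach n)) ↔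
    Acc strict w.length (⟨.back 0, w.length, tp w u w.length, insert (w.length + 1) S⟩ :
        Cfg (mach n)) := by
  have htk : tp w u w.length (w.length + 1) = .rm := by
    simp only [tp, List.getElem?_eq_none (le_refl w.length)]
  rw [acc_iff]
  constructor
  · rintro (⟨h1, _⟩ | ⟨c', ⟨_, q', s, d, hm, _, hs, ht1, ht2, hse, hp1, hp2⟩, hacc⟩)
    · simp only at h1
      omega
    · have hm' : (q', s, d) ∈ delta n .guess (tp w u w.length (w.length + 1)) := hm
      rw [htk] at hm'
      have hb : (q', s, d) = (.back 0, (.inr false, none), false) := hm'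
      simp only [Prod.mk.injEq] at hb
      obtain ⟨e1, e2, e3⟩ := hb
      have e : c' = (⟨.back 0, w.length, tp w u w.length, insert (w.length + 1) S⟩ :
          Cfg (mach n)) := by
        refine cfg_ext (hs.trans e1) ?_ ?_ hse
        · have := hp2 e3
          simp only at this ⊢
          omega
        · by_cases h : w.length + 1 ∈ S
          · exact ht1 h
          · rw [ht2 h]
            change Function.update (tp w u w.length) (w.length + 1)
              ((tp w u w.length (w.length + 1)).rewrite s) = tp w u w.length
            have e0 : (tp w u w.length (w.length + 1)).rewrite s =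
                tp w u w.length (w.length + 1) := by
              rw [htk]
              rfl
            rw [e0]
            exact Function.update_eq_self _ _
      rw [← e]
      exact hacc
  · intro hacc
    right
    refine ⟨_, ⟨le_rfl, .back 0, (.inr false, none), false, ?_, ?_, rfl, ?_, ?_, rfl, ?_, ?_⟩,
      hacc⟩
    · change (_, _, _) ∈ delta n .guess (tp w u w.length (w.length + 1))
      rw [htk]
      rfl
    · intro _ _
      change (tp w u w.length (w.length + 1)).rewrite _ = tp w u w.length (w.length + 1)
      rw [htk]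
      rfl
    · intro _
      rfl
    · intro _
      change tp w u w.length = Function.update (tp w u w.length) (w.length + 1)
        ((tp w u w.length (w.length + 1)).rewrite _)
      have e : (tp w u w.length (w.length + 1)).rewrite (Sum.inr false, none) =
          tp w u w.length (w.length + 1) := by
        rw [htk]
        rfl
      rw [e]
      exact (Function.update_eq_self _ _).symm
    · intro h
      exact absurd h (by simp)
    · intro _
      rfl

end Pool.Agent.Q330.FV
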