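import Mathlib
import Pool.Agent.Q330.FV.Mach

/-!
# The language of the small automaton
-/

set_option autoImplicit false

namespace Pool.Agent.Q330.FV

open Pool.Agent.H630R2.LA

variable {n : ℕ} {strict : Prop}

theorem acc_r {N : ℕ} {q : St n} (hq : q ≠ .guess) {i : ℕ} (hi : i ≤ N + 1)
    (τ : ℕ → Sym (Wk n)) (S : Set ℕ) (q1 : St n) (s : Wk n)
    (h : ∀ x, x ∈ delta n q (τ i) ↔ x = (q1, s, true)) :
    Acc strict N (⟨q, i, τ, S⟩ : Cfg (mach n)) ↔
      Acc strict N (⟨q1, i + 1, τ, insert i S⟩ : Cfg (mach n)) := by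
  rw [acc_ng hq hi]
  constructor
  · rintro ⟨q', b, d, i', hm, h1, _, hacc⟩
    have e := (h _).1 hm
    simp only [Prod.mk.injEq] at e
    obtain ⟨rfl, _, e3⟩ := e
    rw [h1 e3] at hacc
    exact hacc
  · intro hacc
    exact ⟨q1, s, true, i + 1, (h _).2 rfl, fun _ => rfl, fun h => absurd h (by simp), hacc⟩

theorem acc_l {N : ℕ} {q : St n} (hq : q ≠ .guess) {i : ℕ} (hi : i + 1 ≤ N + 1)
    (τ : ℕ → Sym (Wk n)) (S : Set ℕ) (q1 : St n) (s : Wk n)
    (h : ∀ x, x ∈ delta n q (τ (i + 1)) ↔ x = (q1, s, false)) :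
    Acc strict N (⟨q, i + 1, τ, S⟩ : Cfg (mach n)) ↔
      Acc strict N (⟨q1, i, τ, insert (i + 1) S⟩ : Cfg (mach n)) := by
  rw [acc_ng hq hi]
  constructor
  · rintro ⟨q', b, d, i', hm, _, h1, hacc⟩
    have e := (h _).1 hm
    simp only [Prod.mk.injEq] at e
    obtain ⟨rfl, _, e3⟩ := e
    have e4 : i' = i := by
      have := h1 e3
      omega
    rw [e4] at hacc
    exact hacc
  · intro hacc
    exact ⟨q1, s, false, i, (h _).2 rfl, fun h => absurd h (by simp), fun _ => rfl, hacc⟩

variable (w : List (Letter n)) (u : ℕ → Bool)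

theorem tp_sym {k : ℕ} {a : Letter n} (ha : w[k]? = some a) :
    tp w u w.length (k + 1) = .sym (a, some (u k)) := by
  have hk : k < w.length := by
    by_contra h
    rw [List.getElem?_eq_none (by omega)] at ha
    exact absurd ha (by simp)
  simp only [tp, ha, hk, if_true]

theorem tp_rm : tp w u w.length (w.length + 1) = .rm := by
  simp only [tp, List.getElem?_eq_none (le_refl w.length)]

theorem back_iff (j : Fin (n + 1)) (P : Prop)
    (h0 : ∀ S, Acc strict w.length (⟨.back j, 0, tp w u w.length, S⟩ : Cfg (mach n)) ↔ P) :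
    ∀ i ≤ w.length, ∀ S,
      (Acc strict w.length (⟨.back j, i, tp w u w.length, S⟩ : Cfg (mach n)) ↔ P) := by
  intro i
  induction i with
  | zero => intro _; exact h0
  | succ i ih =>
    intro hi S
    obtain ⟨a, ha⟩ : ∃ a, w[i]? = some a := ⟨_, List.getElem?_eq_getElem hi⟩
    rw [acc_l (by simp) (by omega) _ S (.back j) (a, some (u i)) (by
      intro x
      rw [tp_sym w u ha]
      rfl)]
    exact ih (by omega) _

theorem back_zero_lt (j : Fin (n + 1)) (hj : j.val < n) (S : Set ℕ) :
    Acc strict w.length (⟨.back j, 0, tp w u w.length, S⟩ : Cfg (mach n)) ↔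
    ∃ v, Acc strict w.length (⟨.chk ⟨j.val, hj⟩ v, 1, tp w u w.length, insert 0 S⟩ :
      Cfg (mach n)) := by
  rw [acc_ng (by simp) (Nat.zero_le _)]
  constructor
  · rintro ⟨q', b, d, i', hm, h1, _, hacc⟩
    have hm' : (∃ (h : j.val < n) (v : Bool),
      (q', b, d) = (.chk ⟨j.val, h⟩ v, (.inr false, none), true)) ∨
      (j.val = n ∧ (q', b, d) = (.cnt 0 true, (.inr false, none), true)) := hm
    rcases hm' with ⟨h, v, e⟩ | ⟨h, _⟩
    · simp only [Prod.mk.injEq] at e
      obtain ⟨rfl, _, e3⟩ := e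
      rw [h1 e3] at hacc
      exact ⟨v, hacc⟩
    · omega
  · rintro ⟨v, hacc⟩
    exact ⟨_, (.inr false, none), true, 1, Or.inl ⟨hj, v, rfl⟩, fun _ => rfl,
      fun h => absurd h (by simp), hacc⟩

theorem back_zero_eq (j : Fin (n + 1)) (hj : j.val = n) (S : Set ℕ) :
    Acc strict w.length (⟨.back j, 0, tp w u w.length, S⟩ : Cfg (mach n)) ↔
    Acc strict w.length (⟨.cnt 0 true, 1, tp w u w.length, insert 0 S⟩ : Cfg (mach n)) := by
  rw [acc_ng (by simp) (Nat.zero_le _)]
  constructor
  · rintro ⟨q', b, d, i', hm, h1, _, hacc⟩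
    have hm' : (∃ (h : j.val < n) (v : Bool),
      (q', b, d) = (.chk ⟨j.val, h⟩ v, (.inr false, none), true)) ∨
      (j.val = n ∧ (q', b, d) = (.cnt 0 true, (.inr false, none), true)) := hm
    rcases hm' with ⟨h, _, _⟩ | ⟨_, e⟩
    · omega
    · simp only [Prod.mk.injEq] at e
      obtain ⟨rfl, _, e3⟩ := e
      rw [h1 e3] at hacc
      exact hacc
  · intro hacc
    exact ⟨_, (.inr false, none), true, 1, Or.inr ⟨hj, rfl⟩, fun _ => rfl,
      fun h => absurd h (by simp), hacc⟩

theorem chk_iff (j : Fin n) (v : Bool) (P : Prop)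
    (h0 : ∀ S, Acc strict w.length
      (⟨.back j.succ, w.length, tp w u w.length, S⟩ : Cfg (mach n)) ↔ P) :
    ∀ d k, k + d = w.length → ∀ S,
      (Acc strict w.length (⟨.chk j v, k + 1, tp w u w.length, S⟩ : Cfg (mach n)) ↔
        (∀ i, k ≤ i → ∀ b, w[i]? = some (.inl (j, b)) → u i = v) ∧ P) := by
  intro d
  induction d with
  | zero =>
    intro k hk S
    have hk' : k = w.length := by omega
    subst hk'
    rw [acc_l (by simp) le_rfl _ S (.back j.succ) (.inr false, none) (by
      intro x
      rw [tp_rm]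
      rfl), h0]
    constructor
    · intro h
      refine ⟨fun i hi b hb => ?_, h⟩
      rw [List.getElem?_eq_none hi] at hb
      exact absurd hb (by simp)
    · exact fun h => h.2
  | succ d ih =>
    intro k hk S
    have hlt : k < w.length := by omega
    obtain ⟨a, ha⟩ : ∃ a, w[k]? = some a := ⟨_, List.getElem?_eq_getElem hlt⟩
    have hstep : Acc strict w.length (⟨.chk j v, k + 1, tp w u w.length, S⟩ : Cfg (mach n)) ↔
        (∀ b, a = .inl (j, b) → u k = v) ∧
        Acc strict w.length (⟨.chk j v, k + 1 + 1, tp w u w.length, insert (k + 1) S⟩ :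
          Cfg (mach n)) := by
      rw [acc_ng (by simp) (by omega)]
      constructor
      · rintro ⟨q', b, d', i', hm, h1, _, hacc⟩
        rw [tp_sym w u ha] at hm
        have hm' : (∀ b, a = .inl (j, b) → some (u k) = some v) ∧
          (q', b, d') = (.chk j v, (a, some (u k)), true) := hm
        have e := hm'.2
        simp only [Prod.mk.injEq] at e
        obtain ⟨rfl, _, e3⟩ := e
        rw [h1 e3] at hacc
        exact ⟨fun b hb => Option.some.inj (hm'.1 b hb), hacc⟩
      · rintro ⟨hc, hacc⟩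
        refine ⟨_, (a, some (u k)), true, k + 1 + 1, ?_, fun _ => rfl,
          fun h => absurd h (by simp), hacc⟩
        rw [tp_sym w u ha]
        exact ⟨fun b hb => congrArg some (hc b hb), rfl⟩
    rw [hstep, ih (k + 1) (by omega)]
    constructor
    · rintro ⟨h1, h2, h3⟩
      refine ⟨fun i hi b hb => ?_, h3⟩
      rcases Nat.eq_or_lt_of_le hi with h | h
      · subst h
        rw [ha] at hb
        exact h1 b (Option.some.inj hb)
      · exact h2 i h b hb
    · rintro ⟨h1, h2⟩
      exact ⟨fun b hb => h1 k le_rfl b (by rw [ha, hb]),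
        fun i hi b hb => h1 i (by omega) b hb, h2⟩

/-- the scanning function of the last sweep -/
def stp (x : Fin n → Bool) (s : Fin 3 × Bool) : Letter n → Fin 3 × Bool
  | .inl (j, b) => (s.1, s.2 && (x j == b))
  | .inr f => (if (s.2 && f) = true then inc s.1 else s.1, true)

theorem cnt_last (c : Fin 3) (ok : Bool) (S : Set ℕ) :
    Acc strict w.length (⟨.cnt c ok, w.length + 1, tp w u w.length, S⟩ : Cfg (mach n)) ↔
      c = 2 := by
  rw [acc_r (by simp) le_rfl _ S (.cnt c ok) (.inr false, none) (by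
      intro x
      rw [tp_rm]
      rfl), acc_iff]
  constructor
  · rintro (⟨_, h⟩ | ⟨c', h, _⟩)
    · obtain ⟨ok', h⟩ : ∃ ok', (St.cnt c ok : St n) = .cnt 2 ok' := h
      simp only [St.cnt.injEq] at h
      exact h.1
    · have := h.1
      simp only at this
      omega
  · rintro rfl
    exact Or.inl ⟨rfl, ok, rfl⟩

theorem cnt_step {k : ℕ} (hk : k < w.length) {a : Letter n} (ha : w[k]? = some a) (c : Fin 3)
    (ok : Bool) (S : Set ℕ) :
    Acc strict w.length (⟨.cnt c ok, k + 1, tp w u w.length, S⟩ : Cfg (mach n)) ↔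
    Acc strict w.length (⟨upd c ok (a, some (u k)), k + 1 + 1, tp w u w.length,
      insert (k + 1) S⟩ : Cfg (mach n)) :=
  acc_r (by simp) (by omega) _ S _ (a, some (u k)) (by
      intro x
      rw [tp_sym w u ha]
      rfl)

theorem upd_eq (c : Fin 3) (ok : Bool) (s : Wk n) : ∃ c' ok', upd c ok s = .cnt c' ok' := by
  obtain ⟨a, o⟩ := s
  rcases a with ⟨j, b⟩ | f
  · exact ⟨_, _, rfl⟩
  · exact ⟨_, _, rfl⟩

theorem cnt_indep : ∀ d k, k + d = w.length → ∀ (c : Fin 3) (ok : Bool) (S S' : Set ℕ),
    (Acc strict w.length (⟨.cnt c ok, k + 1, tp w u w.length, S⟩ : Cfg (mach n)) ↔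
      Acc strict w.length (⟨.cnt c ok, k + 1, tp w u w.length, S'⟩ : Cfg (mach n))) := by
  intro d
  induction d with
  | zero =>
    intro k hk c ok S S'
    have hk' : k = w.length := by omega
    subst hk'
    rw [cnt_last, cnt_last]
  | succ d ih =>
    intro k hk c ok S S'
    have hlt : k < w.length := by omega
    obtain ⟨a, ha⟩ : ∃ a, w[k]? = some a := ⟨_, List.getElem?_eq_getElem hlt⟩
    rw [cnt_step w u hlt ha, cnt_step w u hlt ha]
    obtain ⟨c', ok', h⟩ := upd_eq c ok (a, some (u k))
    rw [h]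
    exact ih (k + 1) (by omega) c' ok' _ _

theorem cnt_iff (x : Fin n → Bool)
    (hux : ∀ i j b, w[i]? = some (.inl (j, b)) → u i = x j) :
    ∀ d k, k + d = w.length → ∀ (c : Fin 3) (ok : Bool) (S : Set ℕ),
    (Acc strict w.length (⟨.cnt c ok, k + 1, tp w u w.length, S⟩ : Cfg (mach n)) ↔
      ((w.drop k).foldl (stp x) (c, ok)).1 = 2) := by
  intro d
  induction d with
  | zero =>
    intro k hk c ok S
    have hk' : k = w.length := by omega
    subst hk'
    rw [cnt_last, List.drop_length]
    rfl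
  | succ d ih =>
    intro k hk c ok S
    have hlt : k < w.length := by omega
    obtain ⟨a, ha⟩ : ∃ a, w[k]? = some a := ⟨_, List.getElem?_eq_getElem hlt⟩
    have hdrop : w.drop k = a :: w.drop (k + 1) := by
      rw [List.drop_eq_getElem_cons hlt]
      rw [List.getElem?_eq_getElem hlt] at ha
      rw [Option.some.inj ha]
    rw [cnt_step w u hlt ha, hdrop, List.foldl_cons]
    rcases a with ⟨j, b⟩ | f
    · have hu := hux k j b ha
      have e : upd c ok ((Sum.inl (j, b) : Letter n), some (u k)) =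
          .cnt c (ok && (x j == b)) := by
        rw [hu]
        rfl
      rw [e]
      exact ih (k + 1) (by omega) _ _ _
    · exact ih (k + 1) (by omega) _ _ _

theorem back_all (P : Prop)
    (hP : ∀ S, Acc strict w.length (⟨.cnt 0 true, 1, tp w u w.length, S⟩ : Cfg (mach n)) ↔ P) :
    ∀ d (j : Fin (n + 1)), j.val + d = n → ∀ S,
      (Acc strict w.length (⟨.back j, w.length, tp w u w.length, S⟩ : Cfg (mach n)) ↔
        (∀ j' : Fin n, j.val ≤ j'.val → ∃ v, ∀ i b, w[i]? = some (.inl (j', b)) → u i = v) ∧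
          P) := by
  intro d
  induction d with
  | zero =>
    intro j hj S
    refine back_iff w u j _ (fun S => ?_) _ le_rfl S
    rw [back_zero_eq w u j (by omega), hP]
    constructor
    · intro h
      exact ⟨fun j' hj' => absurd j'.isLt (by omega), h⟩
    · exact fun h => h.2
  | succ d ih =>
    intro j hj S
    have hlt : j.val < n := by omega
    refine back_iff w u j _ (fun S => ?_) _ le_rfl S
    rw [back_zero_lt w u j hlt]
    have h1 := fun v => chk_iff (strict := strict) w u ⟨j.val, hlt⟩ v _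
      (ih (Fin.succ ⟨j.val, hlt⟩) (by simp only [Fin.succ_mk]; omega)) w.length 0 (by omega)
      (insert 0 S)
    simp only [zero_add] at h1
    constructor
    · rintro ⟨v, hv⟩
      obtain ⟨h2, h3, h4⟩ := (h1 v).1 hv
      refine ⟨fun j' hj' => ?_, h4⟩
      rcases Nat.eq_or_lt_of_le hj' with h | h
      · have e : j' = ⟨j.val, hlt⟩ := Fin.ext h.symm
        rw [e]
        exact ⟨v, fun i b hb => h2 i (Nat.zero_le _) b hb⟩
      · exact h3 j' (by simp only [Fin.succ_mk]; omega)
    · rintro ⟨h2, h3⟩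
      obtain ⟨v, hv⟩ := h2 ⟨j.val, hlt⟩ le_rfl
      refine ⟨v, (h1 v).2 ⟨fun i _ b hb => hv i b hb, fun j' hj' => h2 j' ?_, h3⟩⟩
      simp only [Fin.succ_mk] at hj'
      omega

theorem guess_sound : ∀ d k, k + d = w.length → ∀ u : ℕ → Bool,
    Acc strict w.length (⟨.guess, k + 1, tp w u k, seenSet k⟩ : Cfg (mach n)) →
    ∃ (u' : ℕ → Bool) (S : Set ℕ), Acc strict w.length
      (⟨.back 0, w.length, tp w u' w.length, S⟩ : Cfg (mach n)) := by
  intro d
  induction d with
  | zero =>
    intro k hk u h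
    have hk' : k = w.length := by omega
    subst hk'
    rw [guess_end] at h
    exact ⟨u, _, h⟩
  | succ d ih =>
    intro k hk u h
    rw [guess_step w u k (by omega)] at h
    obtain ⟨b, hb⟩ := h
    exact ih (k + 1) (by omega) _ hb

theorem guess_complete (h : ∀ S, Acc strict w.length
      (⟨.back 0, w.length, tp w u w.length, S⟩ : Cfg (mach n))) : ∀ d k, k + d = w.length →
    Acc strict w.length (⟨.guess, k + 1, tp w u k, seenSet k⟩ : Cfg (mach n)) := by
  intro d
  induction d with
  | zero =>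
    intro k hk
    have hk' : k = w.length := by omega
    subst hk'
    rw [guess_end]
    exact h _
  | succ d ih =>
    intro k hk
    rw [guess_step w u k (by omega)]
    refine ⟨u k, ?_⟩
    rw [Function.update_eq_self]
    exact ih (k + 1) (by omega)

/-- **The language.** -/
theorem mem_mach : w ∈ (mach n).language strict ↔
    ∃ x : Fin n → Bool, (w.foldl (stp x) (0, true)).1 = 2 := by
  have hinit : ∀ u : ℕ → Bool, init (mach n) w = ⟨.guess, 0 + 1, tp w u 0, seenSet 0⟩ := by
    intro u
    refine cfg_ext rfl rfl (tp_zero w u).symm ?_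
    ext j
    constructor
    · intro h
      exact absurd h (Set.notMem_empty j)
    · intro h
      have h1 := h.1
      have h2 := h.2
      omega
  rw [mem_language_iff]
  constructor
  · intro h
    change Acc strict w.length (init (mach n) w) at h
    rw [hinit fun _ => false] at h
    obtain ⟨u, S, h⟩ := guess_sound w w.length 0 (by omega) _ h
    rw [back_all w u (Acc strict w.length
      (⟨.cnt 0 true, 1, tp w u w.length, ∅⟩ : Cfg (mach n)))
      (fun S => cnt_indep w u w.length 0 (by omega) 0 true S ∅) n 0 (by simp)] at h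
    obtain ⟨h1, h2⟩ := h
    choose x hx using fun j' : Fin n => h1 j' (by simp)
    refine ⟨x, ?_⟩
    have h3 := (cnt_iff w u x (fun i j b hb => hx j i b hb) w.length 0 (by omega) 0 true ∅).1 h2
    simpa using h3
  · rintro ⟨x, hx⟩
    obtain ⟨u, hu⟩ : ∃ u : ℕ → Bool, ∀ i j b, w[i]? = some (.inl (j, b)) → u i = x j := by
      refine ⟨fun i => match w[i]? with
        | some (.inl (j, _)) => x j
        | _ => false, fun i j b h => ?_⟩
      simp only [h]
    change Acc strict w.length (init (mach n) w)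
    rw [hinit u]
    refine guess_complete w u (fun S => ?_) w.length 0 (by omega)
    rw [back_all w u True (fun S => ?_) n 0 (by simp)]
    · exact ⟨fun j' _ => ⟨x j', fun i b hb => hu i j' b hb⟩, trivial⟩
    · rw [iff_true]
      refine (cnt_iff w u x hu w.length 0 (by omega) 0 true S).2 ?_
      simpa using hx

end Pool.Agent.Q330.FV
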