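import Mathlib
import Pool.Agent.Q330.FV.Cut

/-!
# Disjoint rectangles which cover the intersecting pairs of sets
-/

set_option autoImplicit false

namespace Pool.Agent.Q330.FV

open Pool.Agent.H630R2.LA Finset

/-- The functions `A ↦ [A ∩ B = ∅]` are linearly independent. -/
theorem indep {X : Type} [Fintype X] [DecidableEq X] :
    LinearIndependent ℚ (fun B : Finset X => fun A : Finset X =>
      if Disjoint A B then (1 : ℚ) else 0) := by
  rw [Fintype.linearIndependent_iff]
  intro g hg
  have key : ∀ (n : ℕ) (B : Finset X), B.card ≤ n → g B = 0 := by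
    intro n
    induction n with
    | zero =>
      intro B hB
      have hB0 : B = ∅ := card_eq_zero.1 (Nat.le_zero.1 hB)
      subst hB0
      have h1 := congrFun hg univ
      simp only [Finset.sum_apply, Pi.smul_apply, smul_eq_mul, mul_ite, mul_one, mul_zero,
        Pi.zero_apply] at h1
      rw [sum_eq_single (∅ : Finset X)] at h1
      · simpa using h1
      · intro B' _ hne
        rw [if_neg]
        intro hd
        apply hne
        rw [eq_empty_iff_forall_notMem]
        intro x hx
        exact (disjoint_left.1 hd) (mem_univ x) hx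
      · intro h
        exact absurd (mem_univ _) h
    | succ n ih =>
      intro B hB
      have h1 := congrFun hg Bᶜ
      simp only [Finset.sum_apply, Pi.smul_apply, smul_eq_mul, mul_ite, mul_one, mul_zero,
        Pi.zero_apply] at h1
      rw [sum_eq_single B] at h1
      · rwa [if_pos disjoint_compl_left] at h1
      · intro B' _ hne
        split_ifs with hd
        · have hsub : B' ⊆ B := by
            intro x hx
            by_contra hxB
            exact (disjoint_left.1 hd) (mem_compl.2 hxB) hx
          have hlt : B'.card < B.card := card_lt_card (hsub.ssubset_of_ne hne)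
          exact ih B' (by omega)
        · rfl
      · intro h
        exact absurd (mem_univ _) h
  intro B
  exact key B.card B le_rfl

theorem rank_bound {X T : Type} [Fintype X] [Fintype T]
    (R : Finset X → Finset X → T → Prop)
    (h1 : ∀ A B, (∃ x ∈ A, x ∈ B) ↔ ∃ τ, R A B τ)
    (h2 : ∀ A B τ τ', R A B τ → R A B τ' → τ = τ')
    (h3 : ∀ A B A' B' τ, R A B τ → R A' B' τ → R A B' τ) :
    2 ^ Fintype.card X ≤ Fintype.card T + 1 := by
  classical
  obtain ⟨W, hW⟩ : ∃ W : Option T → (Finset X → ℚ), W = fun o => match o with
    | none => fun _ => 1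
    | some τ => fun A => if ∃ B, R A B τ then 1 else 0 := ⟨_, rfl⟩
  have hli := indep (X := X)
  have hmem : ∀ B : Finset X, (fun A : Finset X => if Disjoint A B then (1 : ℚ) else 0) ∈
      Submodule.span ℚ (Set.range W) := by
    intro B
    have heq : (fun A : Finset X => if Disjoint A B then (1 : ℚ) else 0) =
        W none - ∑ τ : T, (if ∃ A', R A' B τ then (1 : ℚ) else 0) • W (some τ) := by
      funext A
      have e1 : (W none - ∑ τ : T, (if ∃ A', R A' B τ then (1 : ℚ) else 0) • W (some τ)) A =
          1 - ∑ τ : T, (if ∃ A', R A' B τ then (1 : ℚ) else 0) *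
            (if ∃ B', R A B' τ then (1 : ℚ) else 0) := by
        simp only [Pi.sub_apply, Finset.sum_apply, Pi.smul_apply, smul_eq_mul, hW]
      rw [e1]
      have e2 : ∀ τ, (if ∃ A', R A' B τ then (1 : ℚ) else 0) *
          (if ∃ B', R A B' τ then (1 : ℚ) else 0) = if R A B τ then 1 else 0 := by
        intro τ
        by_cases h : R A B τ
        · rw [if_pos h, if_pos ⟨A, h⟩, if_pos ⟨B, h⟩, one_mul]
        · rw [if_neg h]
          by_cases ha : ∃ A', R A' B τ
          · by_cases hb : ∃ B', R A B' τ
            · obtain ⟨A', ha⟩ := ha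
              obtain ⟨B', hb⟩ := hb
              exact absurd (h3 _ _ _ _ _ hb ha) h
            · rw [if_neg hb, mul_zero]
          · rw [if_neg ha, zero_mul]
      rw [sum_congr rfl fun τ _ => e2 τ]
      by_cases hd : Disjoint A B
      · rw [if_pos hd, sum_eq_zero, sub_zero]
        intro τ _
        rw [if_neg]
        intro h
        obtain ⟨x, hxA, hxB⟩ := (h1 A B).2 ⟨τ, h⟩
        exact (disjoint_left.1 hd) hxA hxB
      · rw [if_neg hd]
        rw [not_disjoint_iff] at hd
        obtain ⟨τ, hτ⟩ := (h1 A B).1 hd
        rw [sum_eq_single τ, if_pos hτ, sub_self]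
        · intro τ' _ hne
          rw [if_neg]
          intro h
          exact hne (h2 _ _ _ _ h hτ)
        · intro h
          exact absurd (mem_univ _) h
    rw [heq]
    refine Submodule.sub_mem _ (Submodule.subset_span ⟨none, rfl⟩) ?_
    refine Submodule.sum_mem _ fun τ _ => ?_
    exact Submodule.smul_mem _ _ (Submodule.subset_span ⟨some τ, rfl⟩)
  have hfin : Module.finrank ℚ (Submodule.span ℚ (Set.range fun B : Finset X =>
      fun A : Finset X => if Disjoint A B then (1 : ℚ) else 0)) = Fintype.card (Finset X) :=
    finrank_span_eq_card hli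
  have hle : Module.finrank ℚ (Submodule.span ℚ (Set.range fun B : Finset X =>
      fun A : Finset X => if Disjoint A B then (1 : ℚ) else 0)) ≤
      Module.finrank ℚ (Submodule.span ℚ (Set.range W)) := by
    apply Submodule.finrank_mono
    rw [Submodule.span_le]
    rintro _ ⟨B, rfl⟩
    exact hmem B
  have hcard : Module.finrank ℚ (Submodule.span ℚ (Set.range W)) ≤ Fintype.card (Option T) :=
    finrank_range_le_card W
  rw [Fintype.card_option] at hcard
  rw [Fintype.card_finset] at hfin
  omega

/-- The states which occur in a list of length at most `K`, as a function. -/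
theorem list_eq {α : Type} {K : ℕ} {l l' : List α} (h : l.length ≤ K) (h' : l'.length ≤ K)
    (he : ∀ i : Fin K, l[(i : ℕ)]? = l'[(i : ℕ)]?) : l = l' := by
  apply List.ext_getElem?
  intro i
  by_cases hi : i < K
  · exact he ⟨i, hi⟩
  · rw [List.getElem?_eq_none (by omega), List.getElem?_eq_none (by omega)]

/-- **The lower bound.** -/
theorem lower {A : Type} {X : Type} [Fintype X] (strict : Prop) (U : LimAut A) (k ℓ : ℕ)
    (e f : Finset X → List A) (he : ∀ S, (e S).length = ℓ) (hf : ∀ S, (f S).length = ℓ)
    (hU : ∀ S T, (e S ++ f T) ∈ U.language strict ↔ ∃ x ∈ S, x ∈ T)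
    (hun : Unambiguous strict U)
    (hk : ∀ (w : List A) (cs : List (Cfg U)), AccComp strict w.length (init U w) cs →
      ∀ i, visits cs i ≤ k) :
    2 ^ Fintype.card X ≤ (Nat.card U.Q + 1) ^ (2 * k) + 1 := by
  classical
  haveI := U.finQ
  haveI := Fintype.ofFinite U.Q
  have hlen : ∀ S T, (e S ++ f T).length = ℓ + ℓ := by
    intro S T
    rw [List.length_append, he, hf]
  obtain ⟨R, hR⟩ : ∃ R : Finset X → Finset X → (Fin (2 * k) → Option U.Q) → Prop,
      R = fun S T τ => ∃ l cs, Run strict (ℓ + ℓ) ℓ (init U (e S ++ f T)) l cs ∧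
        τ = fun i : Fin (2 * k) => l[(i : ℕ)]? := ⟨_, rfl⟩
  have hshort : ∀ S T l cs, Run strict (ℓ + ℓ) ℓ (init U (e S ++ f T)) l cs →
      l.length ≤ 2 * k := by
    intro S T l cs h
    have h1 := h.length_le
    have h2 := hk (e S ++ f T) cs (by rw [hlen]; exact h.acc) ℓ
    omega
  have hb := rank_bound R (by
      intro S T
      rw [← hU S T, mem_language_iff, hlen]
      constructor
      · rintro ⟨cs, hcs⟩
        obtain ⟨l, hl⟩ := exists_run hcs ℓ
        rw [hR]
        exact ⟨_, l, cs, hl, rfl⟩
      · rintro ⟨τ, hτ⟩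
        rw [hR] at hτ
        obtain ⟨l, cs, h, _⟩ := hτ
        exact ⟨cs, h.acc⟩) (by
      intro S T τ τ' hτ hτ'
      rw [hR] at hτ hτ'
      obtain ⟨l, cs, h, e1⟩ := hτ
      obtain ⟨l', cs', h', e2⟩ := hτ'
      have hcs : cs = cs' := hun (e S ++ f T) cs cs' (by rw [hlen]; exact h.acc)
        (by rw [hlen]; exact h'.acc)
      subst hcs
      rw [e1, e2, h.func h']) (by
      intro S T S' T' τ hτ hτ'
      rw [hR] at hτ hτ' ⊢
      obtain ⟨l, cs, h, e1⟩ := hτ
      obtain ⟨l', cs', h', e2⟩ := hτ'
      have hl : l = l' := list_eq (hshort _ _ _ _ h) (hshort _ _ _ _ h')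
        (fun i => congrFun (e1.symm.trans e2) i)
      subst hl
      have hglue : ∀ q i, glue ℓ q i (init U (e S ++ f T)) (init U (e S' ++ f T')) =
          ⟨q, i, initTape U (e S ++ f T'), ∅⟩ := by
        intro q i
        refine cfg_ext rfl rfl ?_ ?_
        · funext j
          simp only [glue, init]
          cases j with
          | zero => simp [initTape]
          | succ j =>
            split_ifs with hj
            · simp only [initTape]
              rw [List.getElem?_append_left (by rw [he]; omega),
                List.getElem?_append_left (by rw [he]; omega)]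
            · simp only [initTape]
              rw [List.getElem?_append_right (by rw [he]; omega),
                List.getElem?_append_right (by rw [he]; omega), he, he]
        · ext j
          simp [glue, init]
      have hp := paste (M := U) (strict := strict) (N := ℓ + ℓ) (m := ℓ) (by omega)
        (cs.length + cs'.length) _ _ l cs cs' le_rfl h h'
      by_cases hℓ : 1 ≤ ℓ
      · obtain ⟨cs'', h''⟩ := hp.1 hℓ hℓ
        rw [hglue] at h''
        exact ⟨l, cs'', h'', e1⟩
      · obtain ⟨cs'', h''⟩ := hp.2 hℓ hℓ
        rw [hglue] at h''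
        exact ⟨l, cs'', h'', e1⟩)
  rw [Fintype.card_fun, Fintype.card_fin, Fintype.card_option] at hb
  rw [Nat.card_eq_fintype_card (α := U.Q)]
  exact hb

end Pool.Agent.Q330.FV
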