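import Mathlib
import Pool.Agent.Q330.FV.Mach

/-!
# The size of the small automaton
-/

set_option autoImplicit false

namespace Pool.Agent.Q330.FV

open Pool.Agent.H630R2.LA

variable {n : ℕ}

/-- a bit which determines the move -/
def moveBit (x : St n × Wk n × Bool) : Bool :=
  match x.1 with
  | .guess => x.2.1.2.getD false
  | .chk _ v => v
  | _ => false

theorem move_unique {q : St n} {σ : Sym (Wk n)} {x y : St n × Wk n × Bool}
    (hx : x ∈ delta n q σ) (hy : y ∈ delta n q σ) (h : moveBit x = moveBit y) : x = y := by
  cases q with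
  | guess =>
    cases σ with
    | lm => exact absurd hx (fun h => h)
    | rm =>
      have hx : x = (.back 0, (.inr false, none), false) := hx
      have hy : y = (.back 0, (.inr false, none), false) := hy
      rw [hx, hy]
    | sym s =>
      obtain ⟨b, hx⟩ : ∃ b : Bool, x = (.guess, (s.1, some b), true) := hx
      obtain ⟨b', hy⟩ : ∃ b : Bool, y = (.guess, (s.1, some b), true) := hy
      rw [hx, hy] at h
      have h : b = b' := h
      rw [hx, hy, h]
  | back j =>
    cases σ with
    | lm =>
      have hx : (∃ (h : j.val < n) (v : Bool),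
        x = (.chk ⟨j.val, h⟩ v, (.inr false, none), true)) ∨
        (j.val = n ∧ x = (.cnt 0 true, (.inr false, none), true)) := hx
      have hy : (∃ (h : j.val < n) (v : Bool),
        y = (.chk ⟨j.val, h⟩ v, (.inr false, none), true)) ∨
        (j.val = n ∧ y = (.cnt 0 true, (.inr false, none), true)) := hy
      rcases hx with ⟨h1, v, hx⟩ | ⟨h1, hx⟩
      · rcases hy with ⟨h2, v', hy⟩ | ⟨h2, hy⟩
        · rw [hx, hy] at h
          have h : v = v' := h
          rw [hx, hy, h]
        · omega
      · rcases hy with ⟨h2, v', hy⟩ | ⟨h2, hy⟩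
        · omega
        · rw [hx, hy]
    | rm => exact absurd hx (fun h => h)
    | sym s =>
      have hx : x = (.back j, s, false) := hx
      have hy : y = (.back j, s, false) := hy
      rw [hx, hy]
  | chk j v =>
    cases σ with
    | lm => exact absurd hx (fun h => h)
    | rm =>
      have hx : x = (.back j.succ, (.inr false, none), false) := hx
      have hy : y = (.back j.succ, (.inr false, none), false) := hy
      rw [hx, hy]
    | sym s =>
      have hx : (∀ b, s.1 = .inl (j, b) → s.2 = some v) ∧ x = (.chk j v, s, true) := hx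
      have hy : (∀ b, s.1 = .inl (j, b) → s.2 = some v) ∧ y = (.chk j v, s, true) := hy
      rw [hx.2, hy.2]
  | cnt c ok =>
    cases σ with
    | lm => exact absurd hx (fun h => h)
    | rm =>
      have hx : x = (.cnt c ok, (.inr false, none), true) := hx
      have hy : y = (.cnt c ok, (.inr false, none), true) := hy
      rw [hx, hy]
    | sym s =>
      have hx : x = (upd c ok s, s, true) := hx
      have hy : y = (upd c ok s, s, true) := hy
      rw [hx, hy]

def symEquiv (W : Type) : Sym W ≃ Bool ⊕ W where
  toFun s := match s with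
    | .lm => .inl false
    | .rm => .inl true
    | .sym w => .inr w
  invFun s := match s with
    | .inl false => .lm
    | .inl true => .rm
    | .inr w => .sym w
  left_inv s := by cases s <;> rfl
  right_inv s := by rcases s with (_ | _) | _ <;> rfl

theorem card_Wk (n : ℕ) : Nat.card (Wk n) = 6 * n + 6 := by
  change Nat.card (((Fin n × Bool) ⊕ Bool) × Option Bool) = 6 * n + 6
  simp only [Nat.card_eq_fintype_card, Fintype.card_prod, Fintype.card_sum, Fintype.card_fin,
    Fintype.card_bool, Fintype.card_option]
  omega

theorem numTrans_le (n : ℕ) : (mach n).numTrans ≤ (3 * n + 8) * (6 * n + 8) * 2 := by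
  haveI : Finite (St n) := (mach n).finQ
  haveI : Finite (Sym (Wk n)) := Finite.of_equiv _ (symEquiv (Wk n)).symm
  have hcard : Nat.card (St n × Sym (Wk n) × Bool) = (3 * n + 8) * (6 * n + 8) * 2 := by
    rw [Nat.card_prod, Nat.card_prod, card_St, Nat.card_congr (symEquiv (Wk n)), Nat.card_sum,
      card_Wk, Nat.card_eq_fintype_card, Fintype.card_bool]
    ring
  rw [← hcard, ← Set.ncard_univ]
  unfold LimAut.numTrans
  refine Set.ncard_le_ncard_of_injOn
    (fun t : St n × Sym (Wk n) × St n × Wk n × Bool => (t.1, t.2.1, moveBit t.2.2))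
    (fun _ _ => Set.mem_univ _) ?_ Set.finite_univ
  rintro ⟨q, σ, x⟩ hx ⟨q', σ', y⟩ hy h
  simp only [Prod.mk.injEq] at h
  obtain ⟨rfl, rfl, h⟩ := h
  have e : x = y := move_unique hx hy h
  rw [e]

theorem size_le (n : ℕ) : (mach n).size ≤ 700 * (n + 1) ^ 2 := by
  haveI : Finite (St n) := (mach n).finQ
  have h1 := numTrans_le n
  have h2 : (mach n).F.ncard ≤ Nat.card (St n) := Set.ncard_le_card _
  have h3 : Nat.card (Letter n) = 2 * n + 2 := by
    change Nat.card ((Fin n × Bool) ⊕ Bool) = 2 * n + 2
    simp only [Nat.card_eq_fintype_card, Fintype.card_prod, Fintype.card_sum, Fintype.card_fin,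
      Fintype.card_bool]
    omega
  have h4 : Nat.card (mach n).Q = 3 * n + 8 := card_St n
  have h5 : Nat.card (mach n).W = 6 * n + 6 := card_Wk n
  rw [card_St] at h2
  unfold LimAut.size
  rw [h3, h4, h5]
  nlinarith [h1, h2]

end Pool.Agent.Q330.FV
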