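import Mathlib
import Pool.Agent.Q330.FV.Lang

/-!
# Words for sets of vectors, and the number of visits of the small automaton
-/

set_option autoImplicit false

namespace Pool.Agent.Q330.FV

open Pool.Agent.H630R2.LA

variable {n : ℕ} {strict : Prop}

/-- the block of the vector `y` with the flag `f` -/
def blk (y : Fin n → Bool) (f : Bool) : List (Letter n) :=
  (List.finRange n).map (fun j => .inl (j, y j)) ++ [.inr f]

open Classical in
/-- the word for the set `S` of vectors -/
noncomputable def enc (S : Finset (Fin n → Bool)) : List (Letter n) :=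
  (Finset.univ : Finset (Fin n → Bool)).toList.flatMap fun y => blk y (decide (y ∈ S))

theorem length_enc (S : Finset (Fin n → Bool)) : (enc S).length = 2 ^ n * (n + 1) := by
  simp [enc, blk, List.length_flatMap]

theorem fold_map (x y : Fin n → Bool) : ∀ (js : List (Fin n)) (c : Fin 3) (ok : Bool),
    (js.map fun j => (.inl (j, y j) : Letter n)).foldl (stp x) (c, ok) =
      (c, ok && js.all fun j => x j == y j) := by
  intro js
  induction js with
  | nil => intro c ok; simp
  | cons j js ih =>
    intro c ok
    rw [List.map_cons, List.foldl_cons, List.all_cons, ← Bool.and_assoc]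
    exact ih _ _

theorem fold_blk (x y : Fin n → Bool) (f : Bool) (c : Fin 3) :
    (blk y f).foldl (stp x) (c, true) = (if x = y ∧ f = true then inc c else c, true) := by
  unfold blk
  rw [List.foldl_append, fold_map, List.foldl_cons, List.foldl_nil]
  have h : ((List.finRange n).all fun j => x j == y j) = true ↔ x = y := by
    rw [List.all_eq_true]
    constructor
    · intro h
      funext j
      simpa using h j (List.mem_finRange j)
    · rintro rfl j _
      simp
  simp only [stp, Bool.true_and, Bool.and_eq_true, h]

open Classical in
theorem fold_flat (x : Fin n → Bool) (S : Finset (Fin n → Bool)) :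
    ∀ (L : List (Fin n → Bool)), L.Nodup → ∀ c : Fin 3,
    (L.flatMap fun y => blk y (decide (y ∈ S))).foldl (stp x) (c, true) =
      (if x ∈ L ∧ x ∈ S then inc c else c, true) := by
  intro L
  induction L with
  | nil => intro _ c; simp
  | cons y L ih =>
    intro hnd c
    rw [List.nodup_cons] at hnd
    rw [List.flatMap_cons, List.foldl_append, fold_blk, ih hnd.2]
    by_cases hxy : x = y
    · subst hxy
      by_cases hS : x ∈ S
      · simp [hnd.1, hS]
      · simp [hS]
    · by_cases hS : x ∈ S
      · simp [hxy, hS]
      · simp [hS, hxy]

theorem fold_enc (x : Fin n → Bool) (S : Finset (Fin n → Bool)) (c : Fin 3) :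
    (enc S).foldl (stp x) (c, true) = (if x ∈ S then inc c else c, true) := by
  classical
  unfold enc
  have h := fold_flat x S (Finset.univ : Finset (Fin n → Bool)).toList
    (Finset.nodup_toList _) c
  simp only [Finset.mem_toList, Finset.mem_univ, true_and] at h
  exact h

/-- The automaton accepts the words of pairs of sets with a common element. -/
theorem mem_enc (S T : Finset (Fin n → Bool)) :
    (enc S ++ enc T) ∈ (mach n).language strict ↔ ∃ x ∈ S, x ∈ T := by
  rw [mem_mach]
  constructor
  · rintro ⟨x, hx⟩
    rw [List.foldl_append, fold_enc, fold_enc] at hx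
    by_cases hS : x ∈ S
    · by_cases hT : x ∈ T
      · exact ⟨x, hS, hT⟩
      · simp only [hS, hT, if_true, if_false] at hx
        exact absurd hx (by decide)
    · by_cases hT : x ∈ T
      · simp only [hS, hT, if_true, if_false] at hx
        exact absurd hx (by decide)
      · simp only [hS, hT, if_false] at hx
        exact absurd hx (by decide)
  · rintro ⟨x, hS, hT⟩
    refine ⟨x, ?_⟩
    rw [List.foldl_append, fold_enc, fold_enc]
    simp only [hS, hT, if_true]
    decide

/-- the number of the sweep -/
def stage : St n → ℕ
  | .guess => 0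
  | .back j => 2 * j.val + 1
  | .chk j _ => 2 * j.val + 2
  | .cnt _ _ => 2 * n + 2

theorem stage_le (q : St n) : stage q ≤ 2 * n + 2 := by
  cases q with
  | guess => exact Nat.zero_le _
  | back j => simp only [stage]; omega
  | chk j v => simp only [stage]; omega
  | cnt c ok => exact le_rfl

theorem stage_delta {q q' : St n} {σ : Sym (Wk n)} {b : Wk n} {d : Bool}
    (h : (q', b, d) ∈ delta n q σ) :
    stage q < stage q' ∨ (stage q' = stage q ∧
      ((d = true ∧ stage q % 2 = 0) ∨ (d = false ∧ stage q % 2 = 1))) := by
  cases q with
  | guess =>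
    cases σ with
    | lm => exact absurd h (fun h => h)
    | rm =>
      have h : (q', b, d) = (.back 0, (.inr false, none), false) := h
      simp only [Prod.mk.injEq] at h
      rw [h.1]
      left
      simp [stage]
    | sym s =>
      obtain ⟨b', h⟩ : ∃ b' : Bool, (q', b, d) = (.guess, (s.1, some b'), true) := h
      simp only [Prod.mk.injEq] at h
      rw [h.1, h.2.2]
      right
      simp [stage]
  | back j =>
    cases σ with
    | lm =>
      have h : (∃ (h : j.val < n) (v : Bool),
        (q', b, d) = (.chk ⟨j.val, h⟩ v, (.inr false, none), true)) ∨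
        (j.val = n ∧ (q', b, d) = (.cnt 0 true, (.inr false, none), true)) := h
      rcases h with ⟨_, v, h⟩ | ⟨hj, h⟩
      · simp only [Prod.mk.injEq] at h
        rw [h.1]
        left
        simp [stage]
      · simp only [Prod.mk.injEq] at h
        rw [h.1]
        left
        simp only [stage]
        omega
    | rm => exact absurd h (fun h => h)
    | sym s =>
      have h : (q', b, d) = (.back j, s, false) := h
      simp only [Prod.mk.injEq] at h
      rw [h.1, h.2.2]
      exact Or.inr ⟨rfl, Or.inr ⟨rfl, by simp only [stage]; omega⟩⟩
  | chk j v =>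
    cases σ with
    | lm => exact absurd h (fun h => h)
    | rm =>
      have h : (q', b, d) = (.back j.succ, (.inr false, none), false) := h
      simp only [Prod.mk.injEq] at h
      rw [h.1]
      left
      simp only [stage, Fin.val_succ]
      omega
    | sym s =>
      have h : (∀ b, s.1 = .inl (j, b) → s.2 = some v) ∧ (q', b, d) = (.chk j v, s, true) := h
      have h := h.2
      simp only [Prod.mk.injEq] at h
      rw [h.1, h.2.2]
      exact Or.inr ⟨rfl, Or.inl ⟨rfl, by simp only [stage]; omega⟩⟩
  | cnt c ok =>
    cases σ with
    | lm => exact absurd h (fun h => h)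
    | rm =>
      have h : (q', b, d) = (.cnt c ok, (.inr false, none), true) := h
      simp only [Prod.mk.injEq] at h
      rw [h.1, h.2.2]
      exact Or.inr ⟨rfl, Or.inl ⟨rfl, by simp only [stage]; omega⟩⟩
    | sym s =>
      have h : (q', b, d) = (upd c ok s, s, true) := h
      simp only [Prod.mk.injEq] at h
      obtain ⟨c', ok', e⟩ := upd_eq c ok s
      rw [h.1, h.2.2, e]
      exact Or.inr ⟨rfl, Or.inl ⟨rfl, by simp only [stage]; omega⟩⟩

/-- the head has passed cell `i` in the present sweep -/
def passed (i : ℕ) (c : Cfg (mach n)) : ℕ :=
  if stage c.state % 2 = 0 then (if i < c.pos then 1 else 0) else (if c.pos < i then 1 else 0)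

theorem visits_le {N : ℕ} (i : ℕ) {c : Cfg (mach n)} {cs : List (Cfg (mach n))}
    (h : AccComp strict N c cs) : visits cs i + stage c.state + passed i c ≤ 2 * n + 3 := by
  unfold visits
  induction h with
  | stop c hp hf =>
    have h1 := stage_le c.state
    simp only [List.map_cons, List.map_nil, List.count_cons, List.count_nil, beq_iff_eq, passed]
    split_ifs <;> omega
  | move c c' l h1 _ ih =>
    simp only [List.map_cons, List.count_cons, beq_iff_eq]
    obtain ⟨_, q, b, d, hm, _, hs, _, _, _, hp1, hp2⟩ := h1
    have h2 := stage_delta (n := n) hm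
    rw [← hs] at h2
    simp only [passed] at ih ⊢
    rcases h2 with h2 | ⟨h2, h3 | h3⟩
    · split_ifs at ih ⊢ <;> omega
    · have h4 := hp1 h3.1
      rw [h2] at ih
      simp only [h3.2, if_true] at ih ⊢
      split_ifs at ih ⊢ <;> omega
    · have h4 := hp2 h3.1
      rw [h2] at ih
      have h5 : ¬ stage c.state % 2 = 0 := by omega
      simp only [h5, if_false] at ih ⊢
      split_ifs at ih ⊢ <;> omega

end Pool.Agent.Q330.FV
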